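import Mathlib
import Pool.Agent.Y1.KN.All
import Pool.Agent.Y1.KN.Use
import Pool.Agent.R299.NCH.Main

/-!
# The noncommutative Hodge conjecture for `D(A) ⊠ 𝒟`, for the abelian varieties `A` of almost all CM
# types of all CM fields and all small admissible subcategories `𝒟`

Let `𝒟` be an admissible subcategory of `D^perf(Z)`, for a smooth proper complex variety `Z`. Its
topological K-theory `K^top(𝒟) = K^top_0(𝒟) ⊕ K^top_1(𝒟)` is a direct summand of the one of `Z`, with
its Hodge structure. In the statement the rational topological K-theory of `Z` (the rational
cohomology, by the Chern character) is `V : Coh v`, a space `ℚ ^ v` with the Hodge operator `V.z`, the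
multiplication by `p - q` on the classes of type `(p, q)`, and `𝒟` is given by the projector `P` of this
space defined by the projection functor onto `𝒟` (`IsProjector`: `P` is idempotent and commutes with
the Hodge operator). So `K^top(𝒟) ⊗ ℚ` is the image of `P`, and its Hodge classes (`IsHodgeD`) are the
elements of the image of `P` that are killed by `V.z`, that is, whose complexification is in `HH_0(𝒟)`.

Let `E` be an arbitrary CM field of degree `2 g`; nothing is assumed about its Galois group. It has
`2 ^ g` CM types `Φ`. There is an absolute constant `C` such that all but at most
`2 ^ g * C * rate E g p` of them have the following property (`NCHodgeTimes`). Let `A` be any power of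
the abelian variety of CM type `(E, Φ)`, and let `𝒟` be **any** admissible subcategory of any
`D^perf(Z)` which is unrelated to `E` (`Unrelated`, see below). Then

* every Hodge class in `K^top_0(D(A) ⊠ 𝒟) ⊗ ℚ` is a sum of products `f ⊗ x`, where `f` is a combination
  of products of divisor classes on `A` and `x` is a Hodge class in `K^top_0(𝒟) ⊗ ℚ`;
* **the noncommutative Hodge conjecture for `D(A) ⊠ 𝒟` is equivalent to the noncommutative Hodge
  conjecture for `𝒟`.** In particular it is true for `D(A) ⊠ 𝒟` if it is true for `𝒟`: for the K3
  categories of cubic fourfolds and Gushel-Mukai varieties, for all admissible subcategories of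
  `D^perf(Z)` for the varieties `Z` of dimension at most three, for noncommutative curves and surfaces,
  for the categories of modules over finite dimensional algebras of finite global dimension, and so on.

Here `D(A) ⊠ 𝒟` is the admissible subcategory of `D^perf(A × Z)` generated by the products of objects
of `D(A)` and `𝒟`; it is the base change of `𝒟`. Its topological K-theory consists of the forms on the
homology `W` of `A` with values in `K^top(𝒟)` (`IsHodgeAD`, in `HAZ W v`, the cohomology of `A × Z`). Of
the classes of objects, `alg` and `algA`, only two properties are used (`IsObjectClasses`): the product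
of a product of divisor classes on `A` and the class of an object of `𝒟` is in the span of the classes
of objects of `D(A) ⊠ 𝒟`; and the restriction to the fibre over the origin of `A` maps objects of
`D(A) ⊠ 𝒟` to objects of `𝒟`.

The condition on `𝒟` depends only on the Hodge structure of `𝒟`, not on `Z`. Let `w ≠ 0` be a vector in
`K^top(𝒟) ⊗ ℂ` such that for each automorphism `σ` of `ℂ` the conjugate `σ w` is of pure type, a sum of
classes of types `(p, q)` with `p - q = d σ`. The condition is that for all such `w` a function `n` on
the complex embeddings of `E` with `n (conj φ) = - n φ` which is invariant under all automorphisms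
`τ` of `ℂ` with `d (σ τ) = d σ` for all `σ` is zero. So it is true

* for all CM fields `E`, if `K^top(𝒟)` has no sub-Hodge structures with complex multiplication except
  those of type `(0, 0)`: for instance for the K3 category of a very general cubic fourfold, although
  for the ambient variety, e.g. a product of the fourfold with a variety with complex multiplication,
  this may be false;
* (third part of the theorem, `RankCriterion`) if the rank of `K^top(𝒟)` is less than `2 * dim S` for all
  nonzero spaces `S` of functions `n` with `n (conj φ) = - n φ` that are stable under the automorphisms
  of `ℂ`. So for a generic CM field `E`, for which there is only one such space, of dimension `g`, it is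
  true for **all admissible subcategories `𝒟` with `K^top(𝒟)` of rank less than `2 g`**, in
  varieties `Z` with arbitrary Betti numbers; for instance for all K3 categories (of rank `24`) if
  `g > 12`.

Here `p` is any prime factor of `g` (or `p = 1`), and `rate E g p` is `(1 + log (2 g)) ^ 16` times
the smaller of the numbers

* `W (E) / √g`, where (second part of the theorem, `WeightEstimate`) `W (E) ≤ N ^ 2 * D ^ (1 / 4)`;
  `N` is the number of the CM subfields of `E` (with `E`) and `D` is the largest degree of a CM
  subfield of `E` that is normal over `ℚ` with a nonabelian Galois group (`D = 1` if there are none);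
* `√g / p`.

The same is true for the products `A` of powers of the abelian varieties of the types `Φ i` of
finitely many CM fields `E i` that are pairwise independent and all `𝒟` unrelated to all `E i`; here
the fields are pairwise independent if for `i ≠ k` and all complex embeddings `φ` of
`E i` and `ψ` of `E k` some automorphism of `ℂ` is the identity on `φ (E i)` and the complex
conjugation on `ψ (E k)` (this is no condition for one field); the bounds for the fields are added.

The theorem for `D^perf(Z)` itself is the starting result `MP_e12fcd_ag.AllCMFieldsTimes` on the Hodge
conjecture (by helper1 and others of the team), whose proof applies to arbitrary Hodge structures. The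
new point is that it applies to the Hodge structures of admissible subcategories, so that only these
must be unrelated to `E`, and not all of the cohomology of `Z`.
-/

set_option autoImplicit false

namespace Pool.Agent.Results.MP_43e44c_ag.BoxWithCMVarieties

open NumberField Module Finset Pool.Agent.H204R3.CM Pool.Agent.H977R3.CM Pool.Agent.Y1.KN
  Pool.Agent.Y1.HZ Pool.Agent.R299.NCH

/-- The families of CM types `Φ i` of the fields `E i` for which the assertion of the theorem on the
noncommutative Hodge conjecture for `D(A) ⊠ 𝒟` is false. -/
def exceptionalFamilies {ι : Type} (E : ι → Type) [∀ i, Field (E i)] [∀ i, NumberField (E i)] :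
    Set (∀ i, Set (E i →+* ℂ)) :=
  {Φ | (∀ i, IsCMType (Φ i)) ∧ ¬ NCHodgeTimes Φ}

/-- **The noncommutative Hodge conjecture for `D(A) ⊠ 𝒟` is equivalent to the noncommutative Hodge
conjecture for `𝒟`, for the abelian varieties `A` of almost all CM types of all CM fields with few CM
subfields, and of all CM fields whose degree has a large prime factor, and for all unrelated `𝒟`.** -/
theorem result :
    (∃ C : ℝ, 0 ≤ C ∧ ∀ (ι : Type) [Fintype ι] (E : ι → Type) [∀ i, Field (E i)]
      [∀ i, NumberField (E i)] [∀ i, IsCMField (E i)] (g p : ι → ℕ), PairwiseIndep E →
      (∀ i, finrank ℚ (E i) = 2 * g i) → (∀ i, p i ∣ g i ∧ (p i = 1 ∨ (p i).Prime)) →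
      ((exceptionalFamilies E).ncard : ℝ) ≤
        2 ^ (∑ i, g i) * ∑ i, C * rate (E i) (g i) (p i)) ∧
    WeightEstimate ∧ RankCriterion := by
  refine ⟨?_, weight_estimate_holds, rankCriterion_holds⟩
  obtain ⟨C, hC0, hC⟩ := families_holds
  refine ⟨C, hC0, ?_⟩
  intro ι _ E _ _ _ g p hE hg hp
  have h1 := hC ι E (fun _ _ => 1) (fun _ => 1) g p (fun _ _ => rfl) (fun _ => one_ne_zero)
    (fun _ _ => one_dvd _) hg hp (fun Φ => NCHodgeTimes Φ) (by
      intro Φ hΦ hnd
      exact ncHodgeTimes_of_hodgeTimes
        (hodgeTimes_of_not_degenerate hΦ hE fun i => not_degenerate (hΦ i) (hnd i)))
  simp only [Nat.cast_one, one_pow, mul_one] at h1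
  exact h1

end Pool.Agent.Results.MP_43e44c_ag.BoxWithCMVarieties
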