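import Pool.Agent.R936.Nc.Fin

/-!
# The noncommutative Hodge conjecture: factors of CM type

Let `X i`, `i ∈ I`, be a family (finite or infinite) of smooth projective complex varieties of CM type
(for instance of abelian varieties with complex multiplication by subfields of one CM field) and suppose
that the Hodge group of the sum of the Hodge structures `H(X i)` is of dimension at most `R`.

Let `𝒞` be an admissible subcategory of `D(Z)`, `Z` any smooth projective variety. The projection to `𝒞`
is given by a kernel on `Z × Z`, whose Mukai vector `γ` is an algebraic class and an idempotent
correspondence. For every `P`, the projection of `D(Z × P)` to its admissible subcategory `𝒞 ⊠ D(P)`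
(the category of `D(P)`-families of objects of `𝒞`) is given by the kernel of `γ` times the structure
sheaf of the diagonal of `P`; therefore the Hodge classes of `𝒞 ⊠ D(P)` are the classes `γ ∘ c`, where
`c` is a Hodge class on `Z × P`, and the noncommutative Hodge conjecture for `𝒞 ⊠ D(P)` says that these
classes are algebraic (`NcHodge γ P`).

*Theorem.* Suppose that the Hodge conjecture holds for the products in which at most `R + 1` different
members of the family occur. Then there is one product `Y` of members such that, for every smooth
projective variety `Z` and every admissible subcategory `𝒞` of `D(Z)`: the noncommutative Hodge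
conjecture holds for `𝒞 ⊠ D(P)` for all products `P` of members of the family, if and only if it holds
for `𝒞 ⊠ D(Y ^ (dim Z))` (for `dim Z = 0` read `𝒞 ⊠ D(Y)`). Neither the Hodge conjecture for `Z` nor
any statement about the complement of `𝒞` is used.

*Proof.* Let `c` be a Hodge class on `Z × P`. It is, over a splitting field `L`, a sum of classes
`z_a ⊗ w_a`, where the `w_a` form a basis of `H(P) ⊗ L` of products of eigenvectors. The differences of
the Hodge types of the conjugates of `w_a` are bounded by `dim Z` if `z_a ≠ 0`, so there is a product `b`
of eigenvectors on `Y ^ (dim Z)` with the same differences (`Y` is given by a lemma of Dickson type).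
Then `z_a ⊗ b` is a combination of Hodge classes on `Z × Y ^ (dim Z)`, and its image `γ(z_a) ⊗ b` is
algebraic by hypothesis. The contraction with the class `b' ⊗ w_a`, where `b'` is dual to `b`, which is
algebraic by the reduction to few different factors, shows that `γ(z_a) ⊗ w_a` is algebraic, and the
sum of these classes is `γ ∘ c`.
-/

universe u w

namespace Pool.Agent.Results.MP_43e44c_ag.FactorsOfCMType

open H914 Y121.AHS R940 R936.Two R936.Nc VarClass Obj WeilCohomology

/-- **The noncommutative Hodge conjecture with factors of CM type**: for a family of varieties of CM
type with a Hodge group of dimension at most `R`, for which the Hodge conjecture holds for the products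
with at most `R + 1` different factors, there is one product `Y` of members such that, for every variety
`Z` and every admissible subcategory `𝒞` of `D(Z)` (with the class `γ` of the projection), the category
`𝒞 ⊠ D(Y ^ (dim Z))` decides for all categories `𝒞 ⊠ D(P)`, `P` a product of members of the family. -/
theorem result {k : Type u} [Field k] {𝒱 : VarClass k} {ops : CycleOps 𝒱} (T : HodgeTheory ops)
    (hpos : NonnegTypes T) {I : Type w} [Nonempty I] (X : I → 𝒱.Obj)
    (hX : ∀ i, IsCM T (X i)) (R : ℕ) (hR : HgDimLe T X R)
    (h : ∀ i L, (∃ F : Finset I, F.card ≤ R + 1 ∧ ∀ j ∈ i :: L, j ∈ F) →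
      AllAlg (IsHodge T (prodOf X i L))) :
    ∃ (i0 : I) (L0 : List I), ∀ (Z : 𝒱.Obj) (γ : T.W.H (Z.prod Z)),
      NcHodge γ (powerOf X i0 L0 Z.dim) ↔ ∀ i L, NcHodge γ (prodOf X i L) :=
  nc_main hpos hX hR h

end Pool.Agent.Results.MP_43e44c_ag.FactorsOfCMType
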