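import Mathlib
import Pool.Agent.R913.Ind.Nc

/-!
# The noncommutative Hodge conjecture for the box product of an abelian variety and an admissible
subcategory with independent periods

Let `A` be a principally polarized abelian variety with the period matrix `Z` (up to isogeny this is
any complex abelian variety), `D = DZ Z` its Hodge operator, a complex matrix which acts on the
complex homology of `A` with the eigenvalues `1` and `-1` on the parts of the Hodge decomposition, and
let `𝒞` be any admissible subcategory of the derived category of any smooth proper variety. Let `K`
be the rational topological K-theory of `𝒞` (of both parities) with its Hodge operator `K.z`,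
multiplication by `p - q`, in a rational basis.

Let `P(A)` and `P(𝒞)` be the spans over `ℚ` of the entries of the two Hodge operators. A *common part*
is a complex matrix `X` with entries in the intersection of `P(A)` and `P(𝒞)`, of the form `c D + z`
with `c` and `z` in `ℂ ⊗ centre of End(A)`, which commutes with all conjugates of `D - X`; if the
trace of `c D` is zero for all `c` in the centre of `End(A) ⊗ ℚ` (if the Hodge group of `A` is
semisimple) we require moreover that `X = e D` for an idempotent `e`.

*Theorem.* Suppose that `0` is the only common part of `A` and `𝒞`. Then, for all `n`:

(1) the Hodge conjecture for `A ^ n` and the noncommutative Hodge conjecture for `𝒞` imply the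
noncommutative Hodge conjecture for the admissible subcategory `D(A ^ n) ⊠ 𝒞`;

(2) the noncommutative Hodge conjecture for `D(A ^ n) ⊠ 𝒞` implies the one for `𝒞`, and, if `𝒞` has a
functor to the derived category of vector spaces which is not zero on some Hodge class of `𝒞`, the
Hodge conjecture for `A ^ n`.

Only the Hodge structure of the subcategory `𝒞` enters the condition, not the cohomology of the
variety: if `D(Y) = ⟨𝒞₁, …, 𝒞ₘ⟩` is a semiorthogonal decomposition then the theorem can be applied to
those components `D(A ^ n) ⊠ 𝒞ᵢ` of `D(A ^ n × Y)` for which `A` and `𝒞ᵢ` have no common part.
There is no condition on the Hodge group of `A`, on its dimension, or on its endomorphisms, and the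
Hodge classes on `A ^ n` may be exceptional. Examples (not part of the formal statement):
`P(A) ∩ P(𝒞) = 0`; or `End(A) = ℤ` and one entry of the Hodge operator of `A` is not a rational linear
combination of the entries of the Hodge operator of `𝒞`.

The formal statement is about arbitrary subspaces of the rational topological K-theory of `A ^ n`, `𝒞`
and `D(A ^ n) ⊠ 𝒞` with the properties of the images of the Grothendieck groups which are listed in
`GrothendieckGroups`.

*Proof.* By the theorem of MP_4e1cf2_ag.IndependentFactor (applied to the Hodge structure of `𝒞`) a
Hodge class `F` of `D(A ^ n) ⊠ 𝒞` is a sum of products of Hodge classes `f ⊗ x`. For (2) take the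
products `1 ⊗ x` and `f ⊗ u`, and the direct image to `𝒞` of the tensor product with a skyscraper
sheaf on `A ^ n`, or the image under the functor.
-/

namespace Pool.Agent.Results.MP_43e44c_ag.IndependentBox

open Pool.Agent.H204R3.CM Pool.Agent.W437.HC Pool.Agent.TH131.GHC Pool.Agent.TH504.VY
  Pool.Agent.R913.Ind

/-- **Independent factors**: if the abelian variety `A` with the period matrix `Z` and the Hodge
structure `K` of the admissible subcategory `𝒞` have no common part then, for all `n`, the
noncommutative Hodge conjecture for `D(A ^ n) ⊠ 𝒞` is equivalent to the Hodge conjecture for `A ^ n`
and the noncommutative Hodge conjecture for `𝒞` (see `BoxReduces`). -/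
theorem result {g v : ℕ} (Z : Matrix (Fin g) (Fin g) ℂ) (hZ : Z.transpose = Z)
    (hpos : (Z.map Complex.im).PosDef) (K : Coh v)
    (h : ∀ X, IsCommonPart (DZ Z) (entrySpan K.z) X → X = 0) (n : ℕ) :
    BoxReduces (powPer Z n) K :=
  box_main hZ hpos K (indep (polOf hZ hpos) (W := entrySpan K.z)
    (fun i j => Submodule.subset_span ⟨i, j, rfl⟩) h)

end Pool.Agent.Results.MP_43e44c_ag.IndependentBox
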