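import Pool.Agent.R914.NC.Main

/-!
# The noncommutative Hodge conjecture: one tensor power suffices

Let `𝒞` be an admissible subcategory of `D(X)`, `X` smooth and proper over `ℂ`. Put `𝒟 = 𝒞 × 𝒞ᵒᵖ`; the
functor `𝒞 ⊗ 𝒞ᵒᵖ → Perf(ℂ)`, `(E, F) ↦ RHom(F, E)`, gives an evaluation `𝒟 ⊗ 𝒟 → Perf(ℂ)`, which is a
perfect pairing on the rational topological K-theory `K(𝒟) = K_0(𝒟) ⊕ K_1(𝒟)`. The tensor powers
`𝒟^{⊗n}` are, like `𝒞ᵒᵖ ≅ 𝒞^∨ ⊂ D(X)`, again admissible subcategories of the derived categories of smooth
proper varieties, `𝒟^{⊗n}` is the product of the categories `𝒞^{⊗a} ⊗ (𝒞ᵒᵖ)^{⊗(n-a)}` (with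
multiplicities), and `K(𝒟^{⊗n}) = K(𝒟)^{⊗n}` (Künneth).

*Theorem.* Let `b = dim K(𝒟)`, let `w` be a bound for the degrees of the Hochschild homology of `𝒟`, and
let `N = 2 (b² + 1) ((2 w + 1) (b² + 1)) ^ (b²)`. If the noncommutative Hodge conjecture holds for one
tensor power `𝒟^{⊗m}` with `m ≥ N`, then it holds for all tensor powers `𝒟^{⊗n}`. (It is assumed that the
pairing of two objects of `𝒟` is not zero, that is, that `𝒞` has a nonzero numerical `K_0`.)

The bound depends only on the rank of the K-theory of `𝒞` and on the amplitude of its Hochschild
homology, not on `X`, nor on the Hodge structure, nor on the Mumford–Tate group of `𝒞`: no use is made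
of `D(X)` or of the complement of `𝒞`.

*Proof.* The classes of objects form a system of tensors which is closed under products, permutations
(with the Koszul signs) and contractions. The operator of parity is given by a Hodge class of length
two; thus the signs can be removed. The tensors fixed by the algebraic group generated by the conjugates
of the torus of the Hodge decomposition are spanned by Hodge classes. This group is reductive
(polarisation), its equations are of bounded degree as it is generated by the conjugates of a torus with
weights of absolute value at most `w`, and the projections to the spans of algebraic classes commute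
with contractions. It follows that a system which contains all invariants of length at most `N`
contains all invariants.
-/

namespace Pool.Agent.Results.MP_43e44c_ag.OneTensorPower

open Pool.Agent.R914.NC

/-- **One tensor power suffices for the noncommutative Hodge conjecture of all tensor powers**:
`HodgeConj n` is the noncommutative Hodge conjecture for `𝒟^{⊗(n+1)}`; if it holds for one tensor power
of at least `bound b w` factors, where `b = dim K(𝒟)` and `w` bounds the degrees of the Hochschild
homology, then it holds for all tensor powers. -/
theorem result {B : Type} [Fintype B] [DecidableEq B] (S : NCSystem B) {m : ℕ}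
    (hm : bound (Fintype.card B) S.w ≤ m + 1) (h : S.HodgeConj m) (n : ℕ) : S.HodgeConj n :=
  S.one_power hm h n

end Pool.Agent.Results.MP_43e44c_ag.OneTensorPower
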